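import Pool.Agent.H79.HF.Jj

/-!
# The critical mean value with exponent one half: the final statement (helper65)
-/

set_option autoImplicit false

open Finset MeasureTheory

namespace Pool.Agent.H65.PLH

open Pool.Agent.H24.CL Pool.Agent.H24.LV Pool.Agent.H79.HF

/-- the critical mean value for the general gain -/
theorem finalg (hJI : T_JI) (Φ : ℝ → ℝ) (hJJ : T_JJg Φ) : ∀ k : ℕ, 3 ≤ k →
    ∃ C : ℝ, 1 ≤ C ∧
      ((Pool.Agent.H22.VM.sols (k * (k + 1) / 2) k 1).card : ℝ) ≤ C ∧ ∀ N : ℕ, 2 ≤ N →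
      ((Pool.Agent.H22.VM.sols (k * (k + 1) / 2) k N).card : ℝ) ≤
        C * (N : ℝ) ^ (k * (k + 1) / 2) * (1 + Φ (Real.log N)) ^ (1 / 2 : ℝ) := by
  intro k hk
  have hKd : k * (k + 1) / 2 = KN k := rfl
  obtain ⟨C, h⟩ := hJJ k hk
  obtain ⟨D, hD⟩ : ∃ D : ℝ, D = max (max C 1)
    ((Pool.Agent.H22.VM.sols (k * (k + 1) / 2) k 1).card : ℝ) := ⟨_, rfl⟩
  have hCD : C ≤ D := by rw [hD]; exact (le_max_left _ _).trans (le_max_left _ _)
  have h1D : 1 ≤ D := by rw [hD]; exact (le_max_right _ _).trans (le_max_left _ _)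
  refine ⟨D, h1D, by rw [hD]; exact le_max_right _ _, fun N hN => ?_⟩
  rw [hKd, hJI (KN k) k N (by omega) (by omega)]
  refine (h N hN).trans ?_
  rcases le_or_gt 0 (1 + Φ (Real.log N)) with h0 | h0
  · exact mul_le_mul_of_nonneg_right
      (mul_le_mul_of_nonneg_right hCD (by positivity)) (Real.rpow_nonneg h0 _)
  · have h1 : (1 + Φ (Real.log N)) ^ (1 / 2 : ℝ) = 0 := by
      rw [Real.rpow_def_of_neg h0]
      have h2 : Real.cos (1 / 2 * Real.pi) = 0 := by
        rw [show (1 / 2 : ℝ) * Real.pi = Real.pi / 2 by ring, Real.cos_pi_div_two]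
      rw [h2, mul_zero]
    rw [h1, mul_zero, mul_zero]

/-- the critical mean value: doubling of blocks -/
theorem final_dbl (hJI : T_JI) (hJJ : T_JJg fun L => L * Real.log (3 + L)) : ∀ k : ℕ, 3 ≤ k →
    ∃ C : ℝ, ∀ N : ℕ, 1 ≤ N →
      ((Pool.Agent.H22.VM.sols (k * (k + 1) / 2) k N).card : ℝ) ≤
        C * (N : ℝ) ^ (k * (k + 1) / 2) *
          ((1 + Real.log N) * Real.log (3 + Real.log N)) ^ (1 / 2 : ℝ) := by
  intro k hk
  obtain ⟨C, hC1, h1, h2⟩ := finalg hJI _ hJJ k hk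
  refine ⟨C, fun N hN => ?_⟩
  have hC0 : 0 ≤ C := by linarith
  have he : Real.exp 1 ≤ 3 := (Real.exp_one_lt_d9.trans (by norm_num)).le
  have hlog : ∀ L : ℝ, 0 ≤ L → 1 ≤ Real.log (3 + L) := by
    intro L hL
    rw [Real.le_log_iff_exp_le (by linarith)]
    linarith
  rcases Nat.lt_or_ge N 2 with hN2 | hN2
  · have hN1 : N = 1 := by omega
    subst hN1
    refine h1.trans ?_
    have h3 := hlog 0 le_rfl
    have h4 : (1 : ℝ) ≤ ((1 + Real.log (1 : ℕ)) * Real.log (3 + Real.log (1 : ℕ))) ^ (1 / 2 : ℝ) := by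
      apply Real.one_le_rpow _ (by norm_num)
      simpa using h3
    calc C = C * ((1 : ℕ) : ℝ) ^ (k * (k + 1) / 2) * 1 := by simp
      _ ≤ _ := mul_le_mul_of_nonneg_left h4 (by positivity)
  · refine (h2 N hN2).trans ?_
    have hN1 : (1 : ℝ) ≤ N := by exact_mod_cast hN
    have hL : 0 ≤ Real.log N := Real.log_nonneg hN1
    have h3 := hlog _ hL
    apply mul_le_mul_of_nonneg_left _ (by positivity)
    apply Real.rpow_le_rpow (by positivity) _ (by norm_num)
    have h4 : (1 + Real.log N) * Real.log (3 + Real.log N) =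
        Real.log (3 + Real.log N) + Real.log N * Real.log (3 + Real.log N) := by ring
    linarith

/-- the critical mean value: ladders of primes -/
theorem final_lad (hJI : T_JI) (hJJ : T_JJg fun L => L) : ∀ k : ℕ, 3 ≤ k →
    ∃ C : ℝ, ∀ N : ℕ, 1 ≤ N →
      ((Pool.Agent.H22.VM.sols (k * (k + 1) / 2) k N).card : ℝ) ≤
        C * (N : ℝ) ^ (k * (k + 1) / 2) * (1 + Real.log N) ^ (1 / 2 : ℝ) := by
  intro k hk
  obtain ⟨C, hC1, h1, h2⟩ := finalg hJI _ hJJ k hk
  refine ⟨C, fun N hN => ?_⟩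
  rcases Nat.lt_or_ge N 2 with hN2 | hN2
  · have hN1 : N = 1 := by omega
    subst hN1
    refine h1.trans (le_of_eq ?_)
    simp
  · exact h2 N hN2

/-- the gain of the doubling -/
theorem gain_dbl : GainF fun L => L * Real.log (3 + L) := by
  have hlog2 : 0 < Real.log 2 := Real.log_pos (by norm_num)
  have he : Real.exp 1 ≤ 3 := (Real.exp_one_lt_d9.trans (by norm_num)).le
  have hlog : ∀ L : ℝ, 0 ≤ L → 1 ≤ Real.log (3 + L) := by
    intro L hL
    rw [Real.le_log_iff_exp_le (by linarith)]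
    linarith
  refine ⟨fun L hL => ?_, fun L L' hL hLL => ?_⟩
  · have h0 : 0 ≤ L := by linarith
    exact le_mul_of_one_le_right h0 (hlog L h0)
  · have h0 : 0 ≤ L := by linarith
    have h1 := hlog L h0
    have h2 : Real.log (3 + L) ≤ Real.log (3 + L') := Real.log_le_log (by linarith) (by linarith)
    exact mul_le_mul hLL h2 (by linarith) (by linarith)

/-- the gain of the ladders -/
theorem gain_lad : GainF fun L => L := ⟨fun L _ => le_refl L, fun L L' _ h => h⟩

end Pool.Agent.H65.PLH
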