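import Pool.Agent.H79.EH.End
import Pool.Agent.H65.PLH.Fin

/-!
# The critical mean value with exponent one half, from the seen points of the ladders (helper65)
-/

set_option autoImplicit false

open Finset MeasureTheory

namespace Pool.Agent.H65.PLH

open Pool.Agent.H24.CL Pool.Agent.H24.LV Pool.Agent.H79.HF

/-- the critical mean value, from the seen points of the ladders -/
theorem lad_of_see (h : T_SEE fun L => L) : ∀ k : ℕ, 3 ≤ k →
    ∃ C : ℝ, ∀ N : ℕ, 1 ≤ N →
      ((Pool.Agent.H22.VM.sols (k * (k + 1) / 2) k N).card : ℝ) ≤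
        C * (N : ℝ) ^ (k * (k + 1) / 2) * (1 + Real.log N) ^ (1 / 2 : ℝ) :=
  final_lad Pool.Agent.H24.CL.rJI (Pool.Agent.H79.EH.jj_of_see _ gain_lad h)

end Pool.Agent.H65.PLH
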